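import Pool.Agent.H62.NullFin

set_option autoImplicit false
open MeasureTheory Filter Topology

namespace Pool.Agent.Results.MP_9624c8_gt.NotCovered

/-- null-finite sets -/
def NullFinite {G : Type} [AddCommGroup G] [TopologicalSpace G] (B : Set G) : Prop :=
  ∃ x : ℕ → G, Tendsto x atTop (𝓝 0) ∧ ∀ y : G, {n | y + x n ∈ B}.Finite

/-- `A` is covered by countably many Borel null-finite sets -/
def SigmaNF {G : Type} [AddCommGroup G] [TopologicalSpace G] (A : Set G) : Prop :=
  ∃ B : ℕ → Set G, (∀ k, @MeasurableSet G (borel G) (B k) ∧ NullFinite (B k)) ∧ A ⊆ ⋃ k, B k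

open Pool.Agent.H62.NullFin in
theorem result : ¬ SigmaNF {y : (n : ℕ) → ZMod (n + 2) | ∀ n, y n ≠ 0} :=
  fun ⟨B, h1, h2⟩ => not_cover B (fun k => BorelSpace.measurable_eq (α := X) ▸ (h1 k).1) (fun k => (h1 k).2) h2

end Pool.Agent.Results.MP_9624c8_gt.NotCovered
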